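import Pool.Agent.Y859.SF.Stm

set_option autoImplicit false

/-! SF-S3: union over the scales. -/

namespace Pool.Agent.Y510.SF

open Finset
open Pool.Agent.Y859.SF

lemma few_union {S S1 S2 : ℕ → Prop} {ε1 ε2 ε : ℝ} {N : ℕ} (h1 : Few S1 ε1 N) (h2 : Few S2 ε2 N)
    (he : ε1 + ε2 ≤ ε) (h : ∀ m, N < m → m ≤ 2 * N → S m → S1 m ∨ S2 m) : Few S ε N := by
  classical
  obtain ⟨B1, hB1, hS1⟩ := h1
  obtain ⟨B2, hB2, hS2⟩ := h2
  refine ⟨B1 ∪ B2, ?_, ?_⟩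
  · have h3 : ((B1 ∪ B2).card : ℝ) ≤ B1.card + B2.card := by exact_mod_cast card_union_le B1 B2
    have h4 : (0 : ℝ) ≤ N := Nat.cast_nonneg _
    nlinarith
  · intro m hm1 hm2 hm
    rcases h m hm1 hm2 hm with h5 | h5
    · exact mem_union_left _ (hS1 m hm1 hm2 h5)
    · exact mem_union_right _ (hS2 m hm1 hm2 h5)

lemma scales (hb : S_3B) {κ : ℝ} (hκ : 0 < κ) (hκ1 : κ ≤ 1 / 100) (n : ℕ) :
    κ + n * (κ / 20) ≤ 511 / 1000 → ∀ ε : ℝ, 0 < ε → ∃ N₀ : ℕ, ∀ N : ℕ, N₀ ≤ N →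
      Few (fun m => ∃ b y y' : ℕ, Rep m b y y' ∧ (N : ℝ) ^ κ ≤ ((m - b : ℕ) : ℝ) ∧
        ((m - b : ℕ) : ℝ) ≤ (N : ℝ) ^ (κ + (n + 1) * (κ / 20))) ε N := by
  induction n with
  | zero =>
    intro _ ε hε
    obtain ⟨N₀, hN₀⟩ := hb κ κ ε hκ hκ1 (by linarith) (by linarith) hε
    refine ⟨N₀, fun N hN => ?_⟩
    have h1 := hN₀ N hN
    have e : κ + ((0 : ℕ) + 1 : ℝ) * (κ / 20) = κ + κ / 20 := by push_cast; ring
    rw [e]
    exact h1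
  | succ n ih =>
    intro hn ε hε
    push_cast at hn
    obtain ⟨N₁, hN₁⟩ := ih (by nlinarith) (ε / 2) (by linarith)
    obtain ⟨N₂, hN₂⟩ := hb κ (κ + (n + 1) * (κ / 20)) (ε / 2) hκ hκ1 (by
      have : (0 : ℝ) ≤ n := Nat.cast_nonneg _
      have : 0 ≤ (n + 1) * (κ / 20) := by positivity
      linarith) hn (by linarith)
    refine ⟨max N₁ N₂, fun N hN => ?_⟩
    refine few_union (hN₁ N (le_trans (le_max_left _ _) hN)) (hN₂ N (le_trans (le_max_right _ _) hN))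
      (by linarith) ?_
    rintro m hm1 hm2 ⟨b, y, y', hr, h1, h2⟩
    rcases le_total ((m - b : ℕ) : ℝ) ((N : ℝ) ^ (κ + (n + 1) * (κ / 20))) with h3 | h3
    · exact Or.inl ⟨b, y, y', hr, h1, h3⟩
    · refine Or.inr ⟨b, y, y', hr, h3, ?_⟩
      have e : κ + (n + 1) * (κ / 20) + κ / 20 = κ + (((n + 1 : ℕ) : ℝ) + 1) * (κ / 20) := by
        push_cast; ring
      rw [e]
      exact h2

theorem t_3 (ha : S_3A) (hb : S_3B) (hp : S_PA) : S_3 := by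
  intro ε hε
  obtain ⟨κ, hκ, hκ1, h, N₁, hN₁⟩ := ha (ε / 2) (by linarith)
  obtain ⟨m₀, hm₀⟩ := hp
  obtain ⟨n, hn⟩ : ∃ n : ℕ, n = ⌊(511 / 1000 - κ) / (κ / 20)⌋₊ := ⟨_, rfl⟩
  have hk20 : 0 < κ / 20 := by linarith
  have hn1 : κ + n * (κ / 20) ≤ 511 / 1000 := by
    have h1 : (n : ℝ) ≤ (511 / 1000 - κ) / (κ / 20) := by
      rw [hn]
      exact Nat.floor_le (div_nonneg (by linarith) hk20.le)
    rw [le_div_iff₀ hk20] at h1
    linarith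
  have hn2 : 511 / 1000 ≤ κ + (n + 1) * (κ / 20) := by
    have h1 : (511 / 1000 - κ) / (κ / 20) < n + 1 := by
      rw [hn]
      exact Nat.lt_floor_add_one _
    rw [div_lt_iff₀ hk20] at h1
    linarith
  obtain ⟨N₂, hN₂⟩ := scales hb hκ hκ1 n hn1 (ε / 2) (by linarith)
  have h2 := ((tendsto_rpow_atTop (show (0 : ℝ) < 1 / 1000 by norm_num)).comp
    (tendsto_natCast_atTop_atTop (R := ℝ))).eventually_ge_atTop 2
  obtain ⟨N₃, hN₃⟩ := Filter.eventually_atTop.1 h2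
  refine ⟨h, max (max N₁ N₂) (max N₃ (max m₀ 1)), fun N hN => ?_⟩
  have hN1 : N₁ ≤ N := by omega
  have hN2 : N₂ ≤ N := by omega
  have hN3 : N₃ ≤ N := by omega
  have hN4 : m₀ ≤ N := by omega
  have hN5 : 1 ≤ N := by omega
  have hNr : (1 : ℝ) ≤ N := by exact_mod_cast hN5
  have hN0 : (0 : ℝ) < N := by linarith
  refine few_union (hN₁ N hN1) (hN₂ N hN2) (by linarith) ?_
  rintro m hm1 hm2 ⟨b, y, y', hr, h3⟩
  rcases le_total ((m - b : ℕ) : ℝ) ((N : ℝ) ^ κ) with h4 | h4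
  · exact Or.inl ⟨b, y, y', hr, h3, h4⟩
  · refine Or.inr ⟨b, y, y', hr, h4, ?_⟩
    have h5 := (hm₀ m (by omega) b y y' hr).1
    have h6 : (m : ℝ) ≤ 2 * N := by exact_mod_cast hm2
    have h7 : (m : ℝ) ^ (51 / 100 : ℝ) ≤ (2 * N : ℝ) ^ (51 / 100 : ℝ) :=
      Real.rpow_le_rpow (Nat.cast_nonneg _) h6 (by norm_num)
    have h8 : (2 * N : ℝ) ^ (51 / 100 : ℝ) ≤ (N : ℝ) ^ (511 / 1000 : ℝ) := by
      rw [Real.mul_rpow (by norm_num) hN0.le]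
      have h9 : (2 : ℝ) ^ (51 / 100 : ℝ) ≤ 2 := by
        calc (2 : ℝ) ^ (51 / 100 : ℝ) ≤ (2 : ℝ) ^ (1 : ℝ) :=
              Real.rpow_le_rpow_of_exponent_le (by norm_num) (by norm_num)
          _ = 2 := Real.rpow_one 2
      have h10 : (2 : ℝ) ≤ (N : ℝ) ^ (1 / 1000 : ℝ) := hN₃ N hN3
      calc (2 : ℝ) ^ (51 / 100 : ℝ) * (N : ℝ) ^ (51 / 100 : ℝ) ≤
            (N : ℝ) ^ (1 / 1000 : ℝ) * (N : ℝ) ^ (51 / 100 : ℝ) := by
              gcongr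
              linarith
        _ = (N : ℝ) ^ (511 / 1000 : ℝ) := by
              rw [← Real.rpow_add hN0]
              norm_num
    have h11 : (N : ℝ) ^ (511 / 1000 : ℝ) ≤ (N : ℝ) ^ (κ + (n + 1) * (κ / 20)) :=
      Real.rpow_le_rpow_of_exponent_le hNr hn2
    linarith

end Pool.Agent.Y510.SF
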